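import Pool.Agent.Q189.MF.TorD
import Pool.Agent.Q189.HC.Liou

/-!
# Near relations between values of several families of G-functions and a number with a transcendence measure

The proof is that of `Pool.Agent.Q189.MF.TorD` (first part), with the coefficients in `ℤ[θ, α]`.
-/

set_option autoImplicit false

open PowerSeries Module

namespace Pool.Agent.Q246.OS

open Pool.Agent.Y916.Af Pool.Agent.Y916.Al Pool.Agent.Y916.Sl Pool.Agent.Q246.NR Pool.Agent.Q246.NR2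
open Pool.Agent.Q246.LN (mb Ym basis win_fam WinL fib_rel aeval_refl)
open Pool.Agent.Q189.MF (ptD FibD GdD RelD AE bound_AE Sh shp shift bound_Sh top_Sh expand of_not_rel vE vE_pt masterD
  hbad_famD)
open Pool.Agent.Q189.HC (op liouT)
open Pool.Agent.TH456.TM (MeasT)

variable {k : ℕ} {r : Fin k → ℕ}

/-- the places of the variables -/
def oi : Option (Fin k) → Fin 1 ⊕ Fin k := fun o => o.elim (Sum.inl 0) Sum.inr

lemma elim_oi (θ : ℂ) (x : Fin k → ℂ) : (Sum.elim (fun _ : Fin 1 => θ) x) ∘ oi = op θ x := by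
  funext o
  rcases o with _ | j <;> rfl

/-- lower bounds for the polynomials with coefficients in `ℤ[θ, α]` which do not vanish on the product of the fibres -/
def GdT (h : ∀ j, Fin (r j) → ℚ⟦X⟧) (d B : ℕ) (θ : ℂ) (α : Fin k → ℂ) (H : ℝ) : Prop :=
  ∀ ℓ : Fin k → ℂ, (∀ j, Complex.exp (ℓ j) = α j) → (∀ j, ‖ℓ j‖ ≤ H) →
    ∀ P : MvPolynomial ((Σ j : Fin k, Option (Fin (r j))) ⊕ Option (Fin k)) ℤ, P.totalDegree ≤ d →
      (∀ e, |((P.coeff e : ℤ) : ℝ)| ≤ H) →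
      (∃ y ∈ FibD h fun j => 1 / α j, ∃ z : ℂ, MvPolynomial.aeval (Sum.elim y (op z α)) P ≠ 0) →
      1 ≤ H ^ B * ‖MvPolynomial.aeval (Sum.elim (ptD h α ℓ) (op θ α)) P‖

theorem hbadT {h : ∀ j, Fin (r j) → ℚ⟦X⟧}
    (hsize : ∀ j, ∃ C : ℝ, ∀ i m, |((coeff m (h j i) : ℚ) : ℝ)| ≤ C ^ (m + 1))
    (m d : ℕ) {ι : ∀ j, Finset (Fin (r j) → Fin (d + 1))} {c : Fin k → Polynomial ℤ}
    {cc : ∀ j, (Fin (r j) → Fin (d + 1)) → ι j → Polynomial ℤ} (hc0 : ∀ j, c j ≠ 0)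
    (hrel : ∀ j s, MvPolynomial.aeval (h j) (MvPolynomial.C ((c j).map (Int.castRingHom ℚ)) *
      MvPolynomial.monomial (mb d s) 1 -
      ∑ i : ι j, MvPolynomial.C ((cc j s i).map (Int.castRingHom ℚ)) *
        MvPolynomial.monomial (mb d (i : Fin (r j) → Fin (d + 1))) (1 : Polynomial ℚ)) = 0) {θ : ℂ} (hθ : MeasT θ) :
    ∃ D R₀ : ℕ, ∀ B₀ : ℕ, ∃ B : ℕ, ∀ T : ℕ, 1 ≤ T → ∃ H₀ : ℝ, ∀ (x : Fin k → ℂ) (H : ℝ), H₀ ≤ H →
      (∀ j, AInt m T (x j)) → (∀ j, (R₀ : ℝ) < ‖x j‖) → ¬ GdT h d B θ x H →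
      RelD D (fun f : Fin (1 + 1) → Fin (D + 1) =>
        ∏ s, (Fin.cons (2 * Real.pi * Complex.I) (fun _ : Fin 1 => θ) : Fin (1 + 1) → ℂ) s ^ (f s : ℕ))
        (fun j => Ym (h j) Complex.log (fun l : ι j => mb d l) d) x (H ^ (2 + k * d)) ((H ^ (2 + k * d)) ^ B₀)⁻¹ := by
  classical
  choose R₁' hR₁1' hR₁' using fun j => val_memC (hsize j)
  choose R₂' hR₂1' hR₂' using fun j => large_ne (c := (c j).map (Int.castRingHom ℚ))
    ((Polynomial.map_ne_zero_iff (RingHom.injective_int _)).2 (hc0 j))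
  obtain ⟨R₁, hR₁⟩ : ∃ R₁ : ℕ, ∀ j, R₁' j ≤ R₁ :=
    ⟨∑ j, R₁' j, fun j => Finset.single_le_sum (f := R₁') (fun _ _ => Nat.zero_le _) (Finset.mem_univ j)⟩
  obtain ⟨R₂, hR₂⟩ : ∃ R₂ : ℕ, ∀ j, R₂' j ≤ R₂ :=
    ⟨∑ j, R₂' j, fun j => Finset.single_le_sum (f := R₂') (fun _ _ => Nat.zero_le _) (Finset.mem_univ j)⟩
  -- the degrees
  obtain ⟨N, hN, hN'⟩ : ∃ N : ℕ, (∀ j, (c j).natDegree ≤ N) ∧ ∀ j s i, (cc j s i).natDegree ≤ N := by
    have h0 : ∀ j, ∃ N : ℕ, (c j).natDegree ≤ N ∧ ∀ s i, (cc j s i).natDegree ≤ N := by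
      intro j
      refine ⟨(c j).natDegree + ∑ s, ∑ i, (cc j s i).natDegree, by omega, fun s i => ?_⟩
      have h1 : (cc j s i).natDegree ≤ ∑ i, (cc j s i).natDegree :=
        Finset.single_le_sum (f := fun i => (cc j s i).natDegree) (fun _ _ => Nat.zero_le _) (Finset.mem_univ i)
      have h2 : ∑ i, (cc j s i).natDegree ≤ ∑ s, ∑ i, (cc j s i).natDegree :=
        Finset.single_le_sum (f := fun s => ∑ i, (cc j s i).natDegree) (fun _ _ => Nat.zero_le _) (Finset.mem_univ s)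
      omega
    choose N h1 h2 using h0
    have h3 : ∀ j, N j ≤ ∑ j, N j := fun j =>
      Finset.single_le_sum (f := N) (fun _ _ => Nat.zero_le _) (Finset.mem_univ j)
    exact ⟨∑ j, N j, fun j => (h1 j).trans (h3 j), fun j s i => (h2 j s i).trans (h3 j)⟩
  set μ : ∀ j, ι j → Fin (r j) → Fin (d + 1) := fun j l => (l : Fin (r j) → Fin (d + 1)) with hμ
  -- the expansion
  set F₂ : ∀ j, (Fin (r j) → Fin (d + 1)) → ι j → MvPolynomial (Option (Fin k)) ℤ := fun j s l =>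
    Polynomial.aeval (MvPolynomial.X (some j)) (Polynomial.reflect N (cc j s l)) with hF₂
  obtain ⟨D₃, Λ, hΛ1, hb₂⟩ := bound_AE (d := d) F₂
  obtain ⟨κ, cθ, hcθ, hl⟩ := liouT hθ m k D₃
  set nE : ℕ := Fintype.card ((j : Fin k) → Fin (d + 1) × ι j) with hnE
  refine ⟨D₃ + k * d, max R₁ R₂ + 1, fun B₀ => ⟨(2 + k * d) * B₀ + 2 * κ + 2,
    fun T hT => ?_⟩⟩
  set e₀ : ℕ := 2 + k * d with he₀
  set B : ℕ := e₀ * B₀ + 2 * κ + 2 with hB
  have hTR : (1 : ℝ) ≤ T := by exact_mod_cast hT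
  -- the bound of the denominators
  obtain ⟨Λc, hΛc⟩ : ∃ Λc : ℝ, ∀ j, ∀ z : ℂ, ‖z‖ ≤ T → ‖Polynomial.aeval z (Polynomial.reflect N (c j))‖ ≤ Λc := by
    have h0 : ∀ j, ∃ Λc : ℝ, ∀ z : ℂ, ‖z‖ ≤ T → ‖Polynomial.aeval z (Polynomial.reflect N (c j))‖ ≤ Λc := by
      intro j
      have hcont : Continuous fun z : ℂ => ‖Polynomial.aeval z (Polynomial.reflect N (c j))‖ :=
        (Polynomial.continuous_aeval _).norm
      obtain ⟨Λc, hΛc⟩ := (isCompact_closedBall (0 : ℂ) T).bddAbove_image hcont.continuousOn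
      refine ⟨Λc, fun z hz => hΛc ⟨z, ?_, rfl⟩⟩
      rw [mem_closedBall_zero_iff]
      exact hz
    choose Λc hΛc using h0
    refine ⟨∑ j, |Λc j|, fun j z hz => (hΛc j z hz).trans ((le_abs_self _).trans ?_)⟩
    exact Finset.single_le_sum (f := fun j => |Λc j|) (fun _ _ => abs_nonneg _) (Finset.mem_univ j)
  set Λc' : ℝ := max 1 Λc with hΛc'
  have hΛc1 : 1 ≤ Λc' := le_max_left _ _
  refine ⟨max (max (max 9 cθ⁻¹) (Real.log T + 4)) (max (max (nE : ℝ) (nE * (Λ * (2 ^ d) ^ k)))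
    (max (Λ * (T : ℝ) ^ D₃) (Λc' ^ k))), fun α H hH hα hαR hbad => ?_⟩
  have hH8 : 9 ≤ H := (le_max_left _ _).trans ((le_max_left _ _).trans ((le_max_left _ _).trans hH))
  have hHθ : cθ⁻¹ ≤ H := (le_max_right _ _).trans ((le_max_left _ _).trans ((le_max_left _ _).trans hH))
  have hHlog : Real.log T + 4 ≤ H := (le_max_right _ _).trans ((le_max_left _ _).trans hH)
  have hHn2 : nE * (Λ * (2 ^ d) ^ k) ≤ H := (le_max_right _ _).trans ((le_max_left _ _).trans ((le_max_right _ _).trans hH))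
  have hHT : Λ * (T : ℝ) ^ D₃ ≤ H := (le_max_left _ _).trans ((le_max_right _ _).trans ((le_max_right _ _).trans hH))
  have hHc : Λc' ^ k ≤ H := (le_max_right _ _).trans ((le_max_right _ _).trans ((le_max_right _ _).trans hH))
  have hH1 : 1 ≤ H := by linarith
  have hHp : 0 < H := by linarith
  by_contra hrelT
  apply hbad
  clear hbad
  -- the points
  have hαT : ∀ j, ‖α j‖ ≤ T := by
    intro j
    obtain ⟨f, -, -, h3, h4⟩ := hα j
    exact h4 _ h3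
  have hα1 : ∀ j, 1 ≤ ‖α j‖ := by
    intro j
    have h1 := (hαR j).le
    push_cast at h1
    have h2 : (0 : ℝ) ≤ max (R₁ : ℝ) R₂ := (Nat.cast_nonneg R₁).trans (le_max_left _ _)
    linarith
  have hα0 : ∀ j, α j ≠ 0 := fun j => norm_pos_iff.1 (lt_of_lt_of_le one_pos (hα1 j))
  have hαR₁ : ∀ j, (R₁ : ℝ) < ‖α j‖ := by
    intro j
    have h1 := hαR j
    push_cast at h1
    have h2 : (R₁ : ℝ) ≤ max (R₁ : ℝ) R₂ := le_max_left _ _
    linarith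
  have hαR₂ : ∀ j, (R₂ : ℝ) < ‖α j‖ := by
    intro j
    have h1 := hαR j
    push_cast at h1
    have h2 : (R₂ : ℝ) ≤ max (R₁ : ℝ) R₂ := le_max_right _ _
    linarith
  -- the denominators
  set a : Fin k → ℂ := fun j => Polynomial.aeval (α j) (Polynomial.reflect N (c j)) with ha
  have ha0 : ∀ j, a j ≠ 0 := by
    intro j
    have h1 := hR₂' j (α j) (lt_of_le_of_lt (by exact_mod_cast hR₂ j) (hαR₂ j))
    have h2 : Polynomial.aeval (1 / α j) ((c j).map (Int.castRingHom ℚ)) = Polynomial.aeval (1 / α j) (c j) :=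
      Polynomial.aeval_map_algebraMap ℚ (1 / α j) (c j)
    rw [h2] at h1
    rw [ha]
    beta_reduce
    rw [aeval_refl (c j) N (hN j) _ (hα0 j)]
    exact mul_ne_zero (pow_ne_zero _ (hα0 j)) h1
  have hpa0 : ∏ j, a j ≠ 0 := Finset.prod_ne_zero_iff.2 fun j _ => ha0 j
  have hpaH : ‖∏ j, a j‖ ≤ H := by
    refine le_trans ?_ hHc
    rw [norm_prod]
    calc ∏ j, ‖a j‖ ≤ ∏ _j : Fin k, Λc' :=
          Finset.prod_le_prod (fun _ _ => norm_nonneg _) fun j _ => (hΛc _ _ (hαT j)).trans (le_max_right _ _)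
      _ = Λc' ^ k := by rw [Finset.prod_const, Finset.card_univ, Fintype.card_fin]
  -- the relations on the fibres
  have hfib₂ : ∀ y ∈ FibD h (fun j => 1 / α j), ∀ z : ℂ, ∀ (j : Fin k) (s : Fin (r j) → Fin (d + 1)),
      a j * ∏ i, y ⟨j, some i⟩ ^ (s i : ℕ) =
        ∑ l, MvPolynomial.aeval (op z α) (F₂ j s l) * ∏ i, y ⟨j, some i⟩ ^ (μ j l i : ℕ) := by
    intro y hy z j s
    have h1 := fib_rel (hrel j) N (hN j) (hN' j) (α j) (hα0 j) _ (hy j) s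
    rw [ha]
    refine h1.trans (Finset.sum_congr rfl fun l _ => ?_)
    congr 1
    rw [hF₂]
    beta_reduce
    rw [← Polynomial.aeval_algHom_apply, MvPolynomial.aeval_X]
    rfl
  intro ℓ hℓ hℓH P hPd hPH hex
  -- the determinations of the logarithms
  have hn : ∀ j, ∃ n : ℤ, ℓ j = Complex.log (α j) + n * (2 * Real.pi * Complex.I) := by
    intro j
    refine Complex.exp_eq_exp_iff_exists_int.1 ?_
    rw [hℓ j, Complex.exp_log (hα0 j)]
  choose n hn using hn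
  set t : ℂ := 2 * Real.pi * Complex.I with ht
  have htn : ‖t‖ = 2 * Real.pi := by
    rw [ht]
    simp [abs_of_pos Real.pi_pos]
  have hpi3 : 3 < Real.pi := Real.pi_gt_three
  have hpi4 : Real.pi < 4 := by linarith [Real.pi_lt_four]
  have hnH : ∀ j, |(n j : ℝ)| ≤ H := by
    intro j
    have h1 : (n j : ℂ) * t = ℓ j - Complex.log (α j) := by rw [hn j]; ring
    have h2 : |(n j : ℝ)| * (2 * Real.pi) = ‖ℓ j - Complex.log (α j)‖ := by
      rw [← h1, norm_mul, htn, Complex.norm_intCast]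
    have h3 : ‖Complex.log (α j)‖ ≤ Real.log T + 4 := by
      refine (Complex.norm_le_abs_re_add_abs_im _).trans ?_
      rw [Complex.log_re, Complex.log_im]
      have h4 : |Real.log ‖α j‖| ≤ Real.log T := by
        rw [abs_of_nonneg (Real.log_nonneg (hα1 j))]
        exact Real.log_le_log (by linarith [hα1 j]) (hαT j)
      have h5 := Complex.abs_arg_le_pi (α j)
      linarith
    have h4 : |(n j : ℝ)| * (2 * Real.pi) ≤ H + H := by
      rw [h2]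
      refine (norm_sub_le _ _).trans (add_le_add (hℓH j) (h3.trans hHlog))
    have h5 : 0 ≤ |(n j : ℝ)| := abs_nonneg _
    nlinarith
  set pt₀ : (Σ j : Fin k, Option (Fin (r j))) → ℂ := ptD h α fun j => Complex.log (α j) with hpt₀
  have hpt : shp n t pt₀ = ptD h α ℓ := by
    funext s
    rcases s with ⟨j, i⟩
    cases i with
    | none =>
      show Complex.log (α j) + n j * t = ℓ j
      rw [hn j]
    | some i => rfl
  have hptF : ptD h α ℓ ∈ FibD h fun j => 1 / α j := fun j =>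
    hR₁' j (α j) (lt_of_le_of_lt (by exact_mod_cast hR₁ j) (hαR₁ j))
  set ζ : Fin 1 → ℂ := fun _ => θ with hζ
  -- the absence of near relations
  have key : ∀ A : ((j : Fin k) → Fin (d + 1) × ι j) → MvPolynomial (Fin 1 ⊕ Fin k) ℤ,
      (∀ E, (A E).totalDegree ≤ D₃ ∧ len (A E) ≤ Λ * H) → ∀ E₀,
      ‖MvPolynomial.aeval (Sum.elim (Fin.cons t ζ : Fin (1 + 1) → ℂ) α) (Sh n A E₀)‖ ≤ H ^ (e₀ * B₀) *
        ‖∑ E, MvPolynomial.aeval (Sum.elim ζ α) (A E) * vE μ (ptD h α ℓ) E‖ := by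
    intro A hA E₀
    have h1 := of_not_rel (D := D₃ + k * d) (one_le_pow₀ hH1) hrelT (fun E => Sh n A E) (fun E => by
      obtain ⟨h2, h3⟩ := bound_Sh n H hH1 hnH A D₃ (Λ * H) (by positivity) hA E
      refine ⟨h2, h3.trans ?_⟩
      calc (nE : ℝ) * (Λ * H * (2 ^ d * H ^ d) ^ k) = (nE * (Λ * (2 ^ d) ^ k)) * (H * H ^ (k * d)) := by
            rw [mul_pow, ← pow_mul, mul_comm d k]
            ring
        _ ≤ H * (H * H ^ (k * d)) := mul_le_mul_of_nonneg_right hHn2 (by positivity)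
        _ = H ^ e₀ := by
            rw [he₀]
            ring) E₀
    rw [← pow_mul] at h1
    refine h1.trans (mul_le_mul_of_nonneg_left (le_of_eq ?_) (by positivity))
    rw [← hpt, ← shift μ n A t ζ α pt₀]
    congr 1
    refine Finset.sum_congr rfl fun E _ => ?_
    rw [hpt₀, hμ, vE_pt]
  -- the inequality
  obtain ⟨y, hy, z, hPy⟩ := hex
  set A₂ := AE P F₂ with hA₂
  have hbA := fun E => hb₂ P H hPH E
  set A : ((j : Fin k) → Fin (d + 1) × ι j) → MvPolynomial (Fin 1 ⊕ Fin k) ℤ := fun E =>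
    MvPolynomial.rename oi (A₂ E) with hA
  have hev : ∀ E, MvPolynomial.aeval (Sum.elim ζ α) (A E) = MvPolynomial.aeval (op θ α) (A₂ E) := by
    intro E
    rw [hA]
    beta_reduce
    rw [MvPolynomial.aeval_rename, hζ, elim_oi]
  have hlen : ∀ E, (A E).totalDegree ≤ D₃ ∧ len (A E) ≤ Λ * H := by
    intro E
    refine ⟨(MvPolynomial.totalDegree_rename_le _ _).trans (hbA E).1, ?_⟩
    have h1 : len (A E) ≤ len (A₂ E) := by
      rw [hA]
      beta_reduce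
      conv_lhs => rw [(A₂ E).as_sum, map_sum]
      refine (len_sum _ _).trans ?_
      rw [len]
      refine Finset.sum_le_sum fun e _ => ?_
      rw [MvPolynomial.rename_monomial, len_monomial]
    exact h1.trans (hbA E).2
  have hlH : (1 : ℝ) ≤ Λ * H := by
    calc (1 : ℝ) = 1 * 1 := by norm_num
      _ ≤ Λ * H := mul_le_mul hΛ1 hH1 zero_le_one (by linarith)
  have h1 := expand μ F₂ P hPd (op z α) a y (hfib₂ y hy z)
  obtain ⟨E₁, hE₁⟩ : ∃ E, MvPolynomial.aeval (op z α) (A₂ E) ≠ 0 := by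
    by_contra hcon
    push Not at hcon
    have h2 : (∏ j, a j) * MvPolynomial.aeval (Sum.elim y (op z α)) P = 0 := by
      rw [h1]
      refine Finset.sum_eq_zero fun E _ => ?_
      rw [hcon E, zero_mul]
    exact hPy ((mul_eq_zero.1 h2).resolve_left hpa0)
  have hne : ∃ E, MvPolynomial.aeval (Sum.elim ζ α) (A E) ≠ 0 := by
    refine ⟨E₁, fun h0 => ?_⟩
    rw [hev] at h0
    have h2 := hl α T hTR hα (A₂ E₁) (hbA E₁).1 (Λ * H) hlH (hbA E₁).2 ⟨z, hE₁⟩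
    rw [h0, norm_zero, mul_zero] at h2
    linarith
  obtain ⟨E₀, hE₀, htop⟩ := top_Sh n A t ζ α hne
  have h2 := key A hlen E₀
  rw [htop] at h2
  have h3 := expand μ F₂ P hPd (op θ α) a _ (hfib₂ _ hptF θ)
  have h4 : ∑ E, MvPolynomial.aeval (Sum.elim ζ α) (A E) * vE μ (ptD h α ℓ) E =
      (∏ j, a j) * MvPolynomial.aeval (Sum.elim (ptD h α ℓ) (op θ α)) P := by
    rw [h3]
    exact Finset.sum_congr rfl fun E _ => by rw [hev]
  rw [h4, norm_mul] at h2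
  rw [hev] at h2 hE₀
  have h5 := hl α T hTR hα (A₂ E₀) (hbA E₀).1 (Λ * H) hlH (hbA E₀).2 ⟨θ, hE₀⟩
  have h6 : (Λ * H * (T : ℝ) ^ D₃) ^ κ ≤ H ^ (2 * κ) := by
    rw [pow_mul]
    refine pow_le_pow_left₀ (by positivity) ?_ _
    calc Λ * H * (T : ℝ) ^ D₃ = (Λ * (T : ℝ) ^ D₃) * H := by ring
      _ ≤ H * H := mul_le_mul_of_nonneg_right hHT hHp.le
      _ = H ^ 2 := by ring
  have h7 : cθ ≤ H ^ (2 * κ + e₀ * B₀ + 1) * ‖MvPolynomial.aeval (Sum.elim (ptD h α ℓ) (op θ α)) P‖ := by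
    calc cθ ≤ (Λ * H * (T : ℝ) ^ D₃) ^ κ * ‖MvPolynomial.aeval (op θ α) (A₂ E₀)‖ := h5
      _ ≤ H ^ (2 * κ) * (H ^ (e₀ * B₀) *
          (‖∏ j, a j‖ * ‖MvPolynomial.aeval (Sum.elim (ptD h α ℓ) (op θ α)) P‖)) :=
          mul_le_mul h6 h2 (norm_nonneg _) (by positivity)
      _ ≤ H ^ (2 * κ) * (H ^ (e₀ * B₀) * (H * ‖MvPolynomial.aeval (Sum.elim (ptD h α ℓ) (op θ α)) P‖)) :=
          mul_le_mul_of_nonneg_left (mul_le_mul_of_nonneg_left (mul_le_mul_of_nonneg_right hpaH (norm_nonneg _))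
            (by positivity)) (by positivity)
      _ = H ^ (2 * κ + e₀ * B₀ + 1) * ‖MvPolynomial.aeval (Sum.elim (ptD h α ℓ) (op θ α)) P‖ := by
          rw [pow_succ, pow_add]
          ring
  calc (1 : ℝ) = cθ⁻¹ * cθ := (inv_mul_cancel₀ hcθ.ne').symm
    _ ≤ H * (H ^ (2 * κ + e₀ * B₀ + 1) * ‖MvPolynomial.aeval (Sum.elim (ptD h α ℓ) (op θ α)) P‖) :=
        mul_le_mul hHθ h7 hcθ.le (by linarith)
    _ = H ^ B * ‖MvPolynomial.aeval (Sum.elim (ptD h α ℓ) (op θ α)) P‖ := by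
        rw [hB]
        ring

/-- **Near relations between the values of several connected families of G-functions and a number with a transcendence
measure, at almost all tuples**, for a property which follows from `GdT` at the height `H ^ e`. -/
theorem torT {h : ∀ j, Fin (r j) → ℚ⟦X⟧} (hfam : ∀ j, Pool.Agent.Q246.AF.FAMN (h j))
    (hsize : ∀ j, ∃ C : ℝ, ∀ i m, |((coeff m (h j i) : ℚ) : ℝ)| ≤ C ^ (m + 1))
    (hc : ∀ j, Pool.Agent.Y118.UL.Conn (h j)) (m d e R₁ : ℕ) (hm : 1 ≤ m) (he : 1 ≤ e) {θ : ℂ} (hθ : MeasT θ)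
    (Gd : ℕ → (Fin k → ℂ) → ℝ → Prop)
    (hgd : ∀ B₀ : ℕ, ∃ B : ℕ, ∀ T : ℕ, 1 ≤ T → ∃ H₀ : ℝ, ∀ x H, H₀ ≤ H → (∀ j, AInt m T (x j)) →
      (∀ j, (R₁ : ℝ) < ‖x j‖) → GdT h d B₀ θ x (H ^ e) → Gd B x H)
    (hmono : ∀ B x H H', 1 ≤ H → H ≤ H' → H' ≤ H ^ 2 → Gd B x H' → Gd (2 * B) x H) :
    ∃ (B : ℕ) (C c : ℝ), 0 < c ∧ ∀ T : ℕ, 1 ≤ T →
    (∃ H₀ : ℝ, ∀ H₁ : ℝ, H₀ ≤ H₁ →
      (({x : Fin k → ℂ | (∀ j, SInt m T (x j)) ∧ ¬ ∀ H : ℝ, H₁ ≤ H → H ≤ H₁ ^ Real.exp ((T : ℝ) ^ c) →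
        Gd B x H}.ncard : ℕ) : ℝ) ≤ C * (T : ℝ) ^ (-c) * (({ξ : ℂ | SInt m T ξ}.ncard : ℕ) : ℝ) ^ k) ∧
    (({x : Fin k → ℂ | (∀ j, SInt m T (x j)) ∧ ¬ ∀ N₀ : ℕ, ∃ N, N₀ ≤ N ∧
      (({j : ℕ | j < N ∧ ¬ ∀ H : ℝ, 2 ^ (2 ^ j) ≤ H → H ≤ 2 ^ (2 ^ (j + 1)) → Gd B x H}.ncard : ℕ) : ℝ) ≤
          (T : ℝ) ^ (-c) * N}.ncard : ℕ) : ℝ) ≤ C * (T : ℝ) ^ (-c) * (({ξ : ℂ | SInt m T ξ}.ncard : ℕ) : ℝ) ^ k := by
  classical
  have hb := fun j => basis (h j) d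
  choose ι c cc hc0 hLI hrel using hb
  have hfree := fun j => Pool.Agent.Y118.UL.exists_free (h j)
  choose I hI1 hI2 using hfree
  have hw := fun j => win_fam (hfam j) (hsize j) (hc j) (I := I j) ⟨hI1 j, hI2 j⟩ Complex.log
    (fun z hz => Complex.exp_log hz) (fun l : ι j => mb d l) (hLI j) d m
  choose G hG hwin using hw
  obtain ⟨D, R₀, hbad⟩ := hbadT hsize m d hc0 hrel hθ
  have h0 := masterD m hm _ (fun z => ((max R₀ R₁ : ℕ) : ℝ) < ‖z‖) (max R₀ R₁) (fun z hz => not_lt.1 hz) G hG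
    (fun j => (hwin j).mono fun _ _ => trivial) D
    (e * (2 + k * d)) (Nat.mul_pos he (by omega)) (fun (_ : Unit) (f : Fin (1 + 1) → Fin (D + 1)) =>
      ∏ s, (Fin.cons (2 * Real.pi * Complex.I) (fun _ : Fin 1 => θ) : Fin (1 + 1) → ℂ) s ^ (f s : ℕ))
    (fun B _ x H => Gd B x H) (fun B₀ => ?_) (fun B _ x H H' h1 h2 h3 hg => hmono B x H H' h1 h2 h3 hg)
  · obtain ⟨B, C, c, hc, h2⟩ := h0
    refine ⟨B, C, c, hc, fun T hT => ?_⟩
    obtain ⟨⟨H₀, h3⟩, h4⟩ := h2 T hT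
    exact ⟨⟨H₀, fun H₁ hH => h3 H₁ hH ()⟩, h4 ()⟩
  obtain ⟨B₁, hB₁⟩ := hbad B₀
  obtain ⟨B, hB⟩ := hgd B₁
  refine ⟨B, fun T hT => ?_⟩
  obtain ⟨H₀, hH₀⟩ := hB₁ T hT
  obtain ⟨H₀', hH₀'⟩ := hB T hT
  refine ⟨max (max H₀ H₀') 1, fun _ x H hH hx hx' hG => ?_⟩
  have hH1 : 1 ≤ H := (le_max_right _ _).trans hH
  have hHa : H₀ ≤ H := (le_max_left _ _).trans ((le_max_left _ _).trans hH)
  have hHb : H₀' ≤ H := (le_max_right _ _).trans ((le_max_left _ _).trans hH)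
  have hxa : ∀ j, (R₀ : ℝ) < ‖x j‖ := fun j => lt_of_le_of_lt (by exact_mod_cast le_max_left _ _) (hx' j)
  have hxb : ∀ j, (R₁ : ℝ) < ‖x j‖ := fun j => lt_of_le_of_lt (by exact_mod_cast le_max_right _ _) (hx' j)
  have h1 := hH₀ x (H ^ e) (hHa.trans (le_self_pow₀ hH1 (by omega))) hx hxa
    (fun hcon => hG (hH₀' x H hHb hx hxb hcon))
  rw [← pow_mul] at h1
  exact h1

end Pool.Agent.Q246.OS
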