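import Mathlib

/-!
# Countably many sets of density zero
-/

set_option autoImplicit false

open Filter Topology

namespace Pool.Agent.Q246.OS

lemma ncard_le_sum {X ι : Type} [DecidableEq ι] (t : Finset ι) (f : ι → Set X) (hf : ∀ μ, (f μ).Finite) {s : Set X}
    (hs : ∀ x ∈ s, ∃ μ ∈ t, x ∈ f μ) : s.ncard ≤ ∑ μ ∈ t, (f μ).ncard := by
  classical
  have h1 : ∀ t : Finset ι, (⋃ μ ∈ t, f μ).ncard ≤ ∑ μ ∈ t, (f μ).ncard := by
    intro t
    induction t using Finset.induction_on with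
    | empty => simp
    | insert a t ha ih =>
      rw [Finset.sum_insert ha, Finset.set_biUnion_insert]
      exact (Set.ncard_union_le _ _).trans (Nat.add_le_add_left ih _)
  refine (Set.ncard_le_ncard (fun x hx => ?_) (t.finite_toSet.biUnion fun μ _ => hf μ)).trans (h1 t)
  obtain ⟨μ, h2, h3⟩ := hs x hx
  exact Set.mem_biUnion h2 h3

/-- For countably many sets `Z_i` of density zero there is one set `S` of density one which contains only finitely many
elements of each `Z_i`. -/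
theorem one_set {X : Type} (I : ℕ → ℕ → Set X) (hfin : ∀ m T, (I m T).Finite)
    (hmono : ∀ m m' T T', m ≤ m' → T ≤ T' → I m T ⊆ I m' T')
    (hpos : ∀ m, 1 ≤ m → ∀ᶠ T in atTop, 0 < (I m T).ncard) {ι : Type} [Countable ι] (Z : ι → Set X)
    (hZ : ∀ i m, 1 ≤ m → Tendsto (fun T : ℕ => ((Z i ∩ I m T).ncard : ℝ) / (I m T).ncard) atTop (𝓝 0)) :
    ∃ S : Set X, (∀ m, 1 ≤ m → Tendsto (fun T : ℕ => ((S ∩ I m T).ncard : ℝ) / (I m T).ncard) atTop (𝓝 1)) ∧
      ∀ i, ∃ m T, ∀ x ∈ S, x ∈ Z i → x ∈ I m T := by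
  classical
  letI : Encodable ι := Encodable.ofCountable ι
  set Z' : ℕ → Set X := fun ν => (Encodable.decode (α := ι) ν).elim ∅ Z with hZ'
  have hZ0 : ∀ ν m, 1 ≤ m → Tendsto (fun T : ℕ => ((Z' ν ∩ I m T).ncard : ℝ) / (I m T).ncard) atTop (𝓝 0) := by
    intro ν m hm
    rw [hZ']
    simp only
    rcases Encodable.decode (α := ι) ν with _ | i
    · simp
    · exact hZ i m hm
  -- the thresholds
  have h1 : ∀ ν : ℕ, ∃ T₀ : ℕ, ∀ T : ℕ, T₀ ≤ T → ∀ m, 1 ≤ m → m ≤ ν →
      ((∑ μ ∈ Finset.range (ν + 1), (Z' μ ∩ I m T).ncard : ℕ) : ℝ) * (ν + 1) ≤ (I m T).ncard := by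
    intro ν
    have h2 : ∀ m ∈ Finset.Icc 1 ν, ∀ᶠ T in atTop,
        ((∑ μ ∈ Finset.range (ν + 1), (Z' μ ∩ I m T).ncard : ℕ) : ℝ) * (ν + 1) ≤ (I m T).ncard := by
      intro m hm
      have hm1 : 1 ≤ m := (Finset.mem_Icc.1 hm).1
      have h3 : Tendsto (fun T : ℕ => (∑ μ ∈ Finset.range (ν + 1), ((Z' μ ∩ I m T).ncard : ℝ) / (I m T).ncard) * (ν + 1))
          atTop (𝓝 0) := by
        have h4 := tendsto_finsetSum (Finset.range (ν + 1)) fun μ _ => hZ0 μ m hm1
        have h5 := h4.mul_const ((ν : ℝ) + 1)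
        simpa using h5
      filter_upwards [h3.eventually (gt_mem_nhds one_pos)] with T hT
      rcases Nat.eq_zero_or_pos (I m T).ncard with h0 | h0
      · have h5 : I m T = ∅ := (Set.ncard_eq_zero (hfin m T)).1 h0
        rw [h5]
        simp
      · have h6 : (0 : ℝ) < (I m T).ncard := by exact_mod_cast h0
        rw [← Finset.sum_div, div_mul_eq_mul_div, div_lt_one h6] at hT
        push_cast
        exact hT.le
    obtain ⟨T₀, hT₀⟩ := eventually_atTop.1 ((Filter.eventually_all_finset (Finset.Icc 1 ν)).2 h2)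
    exact ⟨T₀, fun T hT m h3 h4 => hT₀ T hT m (Finset.mem_Icc.2 ⟨h3, h4⟩)⟩
  choose T₀ hT₀ using h1
  set tt : ℕ → ℕ := fun ν => ∑ μ ∈ Finset.range (ν + 1), (T₀ μ + 1) with htt
  have htt1 : ∀ ν, T₀ ν ≤ tt ν := by
    intro ν
    have := Finset.single_le_sum (f := fun μ => T₀ μ + 1) (fun _ _ => Nat.zero_le _) (Finset.self_mem_range_succ ν)
    simp only [htt]
    omega
  have htt2 : ∀ ν, ν ≤ tt ν := by
    intro ν
    have h2 : ∑ _μ ∈ Finset.range (ν + 1), 1 ≤ ∑ μ ∈ Finset.range (ν + 1), (T₀ μ + 1) :=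
      Finset.sum_le_sum fun _ _ => Nat.le_add_left _ _
    simp only [Finset.sum_const, Finset.card_range, smul_eq_mul, mul_one] at h2
    simp only [htt]
    omega
  set S : Set X := {x | ∀ ν, x ∈ Z' ν → x ∈ I ν (tt ν)} with hS
  have key : ∀ m K T : ℕ, 1 ≤ m → m ≤ K → tt K < T → ((I m T \ S).ncard : ℝ) * (K + 1) ≤ (I m T).ncard := by
    intro m K T hm hmK hT
    set ν := Nat.findGreatest (fun ν => tt ν < T) T with hν
    have hKT : K ≤ T := (htt2 K).trans hT.le
    have hKν : K ≤ ν := Nat.le_findGreatest hKT hT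
    have hPν : tt ν < T := Nat.findGreatest_spec (P := fun ν => tt ν < T) hKT hT
    have h2 : (I m T \ S).ncard ≤ ∑ μ ∈ Finset.range (ν + 1), (Z' μ ∩ I m T).ncard := by
      refine ncard_le_sum _ _ (fun μ => (hfin m T).subset Set.inter_subset_right) fun x hx => ?_
      obtain ⟨hx1, hx2⟩ := hx
      rw [hS, Set.mem_ofPred_eq] at hx2
      push Not at hx2
      obtain ⟨μ, h3, h4⟩ := hx2
      refine ⟨μ, Finset.mem_range.2 ?_, h3, hx1⟩
      by_contra hcon
      have h5 : ν < μ := by omega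
      have h6 : T ≤ tt μ := by
        by_contra h7
        rcases le_or_gt μ T with h8 | h8
        · exact Nat.findGreatest_is_greatest (P := fun ν => tt ν < T) h5 h8 (by omega)
        · have := htt2 μ
          omega
      exact h4 (hmono m μ T (tt μ) (by omega) h6 hx1)
    have h3 := hT₀ ν T ((htt1 ν).trans hPν.le) m hm (hmK.trans hKν)
    have h4 : ((I m T \ S).ncard : ℝ) ≤ ((∑ μ ∈ Finset.range (ν + 1), (Z' μ ∩ I m T).ncard : ℕ) : ℝ) := by exact_mod_cast h2
    have h5 : (K : ℝ) + 1 ≤ ν + 1 := by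
      have : (K : ℝ) ≤ ν := by exact_mod_cast hKν
      linarith
    exact (mul_le_mul h4 h5 (by positivity) (by positivity)).trans h3
  refine ⟨S, fun m hm => ?_, fun i => ?_⟩
  · rw [Metric.tendsto_atTop]
    intro ε hε
    obtain ⟨K, hK⟩ := exists_nat_gt (1 / ε)
    obtain ⟨T₁, hT₁⟩ := eventually_atTop.1 (hpos m hm)
    refine ⟨max T₁ (tt (max m K) + 1), fun T hT => ?_⟩
    have h2 := hT₁ T ((le_max_left _ _).trans hT)
    have h3 := key m (max m K) T hm (le_max_left _ _) (by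
      have := (le_max_right _ _).trans hT
      omega)
    have h4 := Set.ncard_inter_add_ncard_diff_eq_ncard (I m T) S (hfin m T)
    have h5 : (0 : ℝ) < (I m T).ncard := by exact_mod_cast h2
    have h6 : ((S ∩ I m T).ncard : ℝ) / (I m T).ncard - 1 = -(((I m T \ S).ncard : ℝ) / (I m T).ncard) := by
      rw [Set.inter_comm]
      have h7 : ((I m T).ncard : ℝ) = (I m T ∩ S).ncard + (I m T \ S).ncard := by exact_mod_cast h4.symm
      field_simp
      linarith
    rw [Real.dist_eq, h6, abs_neg, abs_of_nonneg (by positivity), div_lt_iff₀ h5]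
    have h7 : (K : ℝ) ≤ (max m K : ℕ) := by exact_mod_cast le_max_right _ _
    have h8 : 1 < ε * (((max m K : ℕ) : ℝ) + 1) := by
      have h9 : 1 / ε < ((max m K : ℕ) : ℝ) + 1 := by linarith
      rw [div_lt_iff₀ hε] at h9
      linarith
    have h9 : (0 : ℝ) ≤ (I m T \ S).ncard := by positivity
    by_contra hcon
    rw [not_lt] at hcon
    have h10 : ε * ((I m T).ncard : ℝ) * (((max m K : ℕ) : ℝ) + 1) ≤ (I m T).ncard :=
      (mul_le_mul_of_nonneg_right hcon (by positivity)).trans h3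
    have h11 : (ε * (((max m K : ℕ) : ℝ) + 1)) * ((I m T).ncard : ℝ) ≤ 1 * (I m T).ncard := by
      rw [one_mul]
      refine le_trans (le_of_eq ?_) h10
      ring
    have h12 := le_of_mul_le_mul_right h11 h5
    linarith
  · refine ⟨Encodable.encode i, tt (Encodable.encode i), fun x hx hxi => hx _ ?_⟩
    rw [hZ']
    simp only [Encodable.encodek]
    exact hxi

end Pool.Agent.Q246.OS
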