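import Mathlib

/-!
# The power series solutions of a linear differential system form a countable set
-/

set_option autoImplicit false

open PowerSeries

namespace Pool.Agent.Q246.OS

lemma coeff_X_der (b : ℚ⟦X⟧) (j : ℕ) : coeff j (X * PowerSeries.derivative ℚ b) = (j : ℚ) * coeff j b := by
  rcases j with _ | j
  · rw [coeff_zero_X_mul, Nat.cast_zero, zero_mul]
  · rw [coeff_succ_X_mul, PowerSeries.coeff_derivative]
    push_cast
    ring

lemma coeff_lead {a b : ℚ⟦X⟧} {m n : ℕ} (ha : ∀ i, i < m → coeff i a = 0) (hb : ∀ i, i < n → coeff i b = 0) :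
    coeff (m + n) (a * b) = coeff m a * coeff n b := by
  rw [coeff_mul]
  refine Finset.sum_eq_single (m, n) (fun p hp hne => ?_) (fun h => absurd (by simp) h)
  have hp := (by simpa using hp : p.1 + p.2 = m + n)
  rcases lt_trichotomy p.1 m with h | h | h
  · rw [ha _ h, zero_mul]
  · exfalso
    apply hne
    ext
    · exact h
    · simp only
      omega
  · rw [hb _ (by omega), mul_zero]

/-- a quotient with derivative zero is constant -/
lemma const_ratio {a b : ℚ⟦X⟧} (hb : b ≠ 0)
    (h : a * PowerSeries.derivative ℚ b = PowerSeries.derivative ℚ a * b) : ∃ c : ℚ, a = c • b := by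
  classical
  obtain ⟨n, hn, hn'⟩ : ∃ n, coeff n b ≠ 0 ∧ ∀ i, i < n → coeff i b = 0 := by
    have h1 : ∃ n, coeff n b ≠ 0 := by
      by_contra hcon
      push Not at hcon
      exact hb (PowerSeries.ext fun n => by rw [hcon n, map_zero])
    exact ⟨Nat.find h1, Nat.find_spec h1, fun i hi => not_not.1 (Nat.find_min h1 hi)⟩
  set c : ℚ := coeff n a / coeff n b with hc
  set e : ℚ⟦X⟧ := a - c • b with he
  have hen : coeff n e = 0 := by
    rw [he, map_sub, PowerSeries.coeff_smul, smul_eq_mul, hc, div_mul_cancel₀ _ hn, sub_self]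
  have h2 : e * PowerSeries.derivative ℚ b = PowerSeries.derivative ℚ e * b := by
    rw [he, map_sub, Derivation.map_smul, sub_mul, sub_mul, h, smul_mul_assoc, smul_mul_assoc, mul_comm b]
  refine ⟨c, ?_⟩
  by_contra hne
  have he0 : e ≠ 0 := fun h0 => hne (sub_eq_zero.1 h0)
  obtain ⟨m, hm, hm'⟩ : ∃ m, coeff m e ≠ 0 ∧ ∀ i, i < m → coeff i e = 0 := by
    have h1 : ∃ m, coeff m e ≠ 0 := by
      by_contra hcon
      push Not at hcon
      exact he0 (PowerSeries.ext fun n => by rw [hcon n, map_zero])
    exact ⟨Nat.find h1, Nat.find_spec h1, fun i hi => not_not.1 (Nat.find_min h1 hi)⟩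
  have h3 : coeff (m + n) (e * (X * PowerSeries.derivative ℚ b)) = coeff m e * ((n : ℚ) * coeff n b) := by
    rw [coeff_lead hm' (fun i hi => by rw [coeff_X_der, hn' i hi, mul_zero]), coeff_X_der]
  have h4 : coeff (m + n) ((X * PowerSeries.derivative ℚ e) * b) = ((m : ℚ) * coeff m e) * coeff n b := by
    rw [coeff_lead (fun i hi => by rw [coeff_X_der, hm' i hi, mul_zero]) hn', coeff_X_der]
  have h5 : e * (X * PowerSeries.derivative ℚ b) = (X * PowerSeries.derivative ℚ e) * b := by
    rw [mul_left_comm, h2, mul_assoc]
  rw [h5, h4] at h3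
  have h6 : ((m : ℚ) - n) * (coeff m e * coeff n b) = 0 := by linear_combination h3
  rcases mul_eq_zero.1 h6 with h7 | h7
  · have h8 : (m : ℚ) = n := sub_eq_zero.1 h7
    have h9 : m = n := by exact_mod_cast h8
    rw [h9] at hm
    exact hm hen
  · exact mul_ne_zero hm hn h7

variable {r : ℕ}

/-- the solutions of `T y' = A y` -/
def Sol (T : ℚ⟦X⟧) (A : Fin r → Fin r → ℚ⟦X⟧) : Submodule ℚ (Fin r → ℚ⟦X⟧) where
  carrier := {y | ∀ i, T * PowerSeries.derivative ℚ (y i) = ∑ j, A i j * y j}
  zero_mem' := fun i => by simp
  add_mem' := fun {y z} hy hz i => by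
    rw [Pi.add_apply, map_add, mul_add, hy i, hz i, ← Finset.sum_add_distrib]
    exact Finset.sum_congr rfl fun j _ => by rw [Pi.add_apply, mul_add]
  smul_mem' := fun c y hy i => by
    rw [Pi.smul_apply, Derivation.map_smul, mul_smul_comm, hy i, Finset.smul_sum]
    exact Finset.sum_congr rfl fun j _ => by rw [Pi.smul_apply, mul_smul_comm]

theorem indep {ι : Type} [Fintype ι] {T : ℚ⟦X⟧} (hT : T ≠ 0) {A : Fin r → Fin r → ℚ⟦X⟧} {v : ι → Fin r → ℚ⟦X⟧}
    (hv : ∀ i, v i ∈ Sol T A) (hind : LinearIndependent ℚ v) : LinearIndependent ℚ⟦X⟧ v := by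
  classical
  rw [Fintype.linearIndependent_iff]
  have key : ∀ n : ℕ, ∀ g : ι → ℚ⟦X⟧, (Finset.univ.filter fun i => g i ≠ 0).card ≤ n → (∀ s, ∑ i, g i * v i s = 0) →
      ∀ i, g i = 0 := by
    intro n
    induction n with
    | zero =>
      intro g hg _ i
      by_contra hcon
      have h1 : 0 < (Finset.univ.filter fun i => g i ≠ 0).card :=
        Finset.card_pos.2 ⟨i, Finset.mem_filter.2 ⟨Finset.mem_univ _, hcon⟩⟩
      omega
    | succ n ih =>
      intro g hg hrel
      by_contra hcon
      push Not at hcon
      obtain ⟨i₀, hi₀⟩ := hcon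
      -- the derivative of the relation
      have h1 : ∀ s, ∑ i, PowerSeries.derivative ℚ (g i) * v i s = 0 := by
        intro s
        have h2 : PowerSeries.derivative ℚ (∑ i, g i * v i s) = 0 := by rw [hrel s, map_zero]
        rw [map_sum] at h2
        have h3 : ∀ i, PowerSeries.derivative ℚ (g i * v i s) =
            g i * PowerSeries.derivative ℚ (v i s) + PowerSeries.derivative ℚ (g i) * v i s := by
          intro i
          rw [Derivation.leibniz, smul_eq_mul, smul_eq_mul, mul_comm (v i s)]
        simp only [h3, Finset.sum_add_distrib] at h2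
        have h4 : T * ∑ i, g i * PowerSeries.derivative ℚ (v i s) = 0 := by
          rw [Finset.mul_sum]
          calc ∑ i, T * (g i * PowerSeries.derivative ℚ (v i s))
              = ∑ i, ∑ j, A s j * (g i * v i j) := by
                refine Finset.sum_congr rfl fun i _ => ?_
                have h5 := hv i s
                calc T * (g i * PowerSeries.derivative ℚ (v i s)) = g i * (T * PowerSeries.derivative ℚ (v i s)) := by ring
                  _ = g i * ∑ j, A s j * v i j := by rw [h5]
                  _ = _ := by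
                    rw [Finset.mul_sum]
                    exact Finset.sum_congr rfl fun j _ => by ring
            _ = ∑ j, A s j * ∑ i, g i * v i j := by
                rw [Finset.sum_comm]
                exact Finset.sum_congr rfl fun j _ => by rw [Finset.mul_sum]
            _ = 0 := Finset.sum_eq_zero fun j _ => by rw [hrel j, mul_zero]
        have h5 := (mul_eq_zero.1 h4).resolve_left hT
        rw [h5, zero_add] at h2
        exact h2
      set g' : ι → ℚ⟦X⟧ := fun i => g i * PowerSeries.derivative ℚ (g i₀) - PowerSeries.derivative ℚ (g i) * g i₀ with hg'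
      have h2 : ∀ s, ∑ i, g' i * v i s = 0 := by
        intro s
        calc ∑ i, g' i * v i s = PowerSeries.derivative ℚ (g i₀) * ∑ i, g i * v i s -
              g i₀ * ∑ i, PowerSeries.derivative ℚ (g i) * v i s := by
              rw [Finset.mul_sum, Finset.mul_sum, ← Finset.sum_sub_distrib]
              exact Finset.sum_congr rfl fun i _ => by rw [hg']; ring
          _ = 0 := by rw [hrel s, h1 s, mul_zero, mul_zero, sub_zero]
      have h3 : (Finset.univ.filter fun i => g' i ≠ 0).card ≤ n := by
        have h4 : (Finset.univ.filter fun i => g' i ≠ 0) ⊆ (Finset.univ.filter fun i => g i ≠ 0).erase i₀ := by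
          intro i hi
          rw [Finset.mem_filter] at hi
          rw [Finset.mem_erase, Finset.mem_filter]
          refine ⟨?_, Finset.mem_univ _, ?_⟩
          · rintro rfl
            apply hi.2
            rw [hg']
            ring
          · intro h0
            apply hi.2
            rw [hg']
            simp only
            rw [h0, map_zero, zero_mul, zero_mul, sub_zero]
        have h5 := Finset.card_le_card h4
        have h6 := Finset.card_erase_of_mem (show i₀ ∈ (Finset.univ.filter fun i => g i ≠ 0) from
          Finset.mem_filter.2 ⟨Finset.mem_univ _, hi₀⟩)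
        omega
      have h4 := ih g' h3 h2
      have h5 : ∀ i, ∃ c : ℚ, g i = c • g i₀ := by
        intro i
        exact const_ratio hi₀ (sub_eq_zero.1 (h4 i))
      choose c hc using h5
      have h6 : ∑ i, c i • v i = 0 := by
        funext s
        have h7 : g i₀ * (∑ i, c i • v i) s = 0 := by
          rw [Finset.sum_apply, Finset.mul_sum, ← hrel s]
          refine Finset.sum_congr rfl fun i _ => ?_
          rw [Pi.smul_apply, mul_smul_comm]
          conv_rhs => rw [hc i, smul_mul_assoc]
        exact (mul_eq_zero.1 h7).resolve_left hi₀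
      have h7 := Fintype.linearIndependent_iff.1 hind c h6 i₀
      apply hi₀
      rw [hc i₀, h7, zero_smul]
  intro g hg i
  refine key _ g le_rfl (fun s => ?_) i
  have := congrFun hg s
  rw [Finset.sum_apply] at this
  simpa [Pi.smul_apply, smul_eq_mul] using this

theorem countable_sol {T : ℚ⟦X⟧} (hT : T ≠ 0) (A : Fin r → Fin r → ℚ⟦X⟧) : Countable (Sol T A) := by
  classical
  have h1 : Module.rank ℚ (Sol T A) ≤ r := by
    refine rank_le fun s hs => ?_
    have h2 : LinearIndependent ℚ (fun i : s => ((i : Sol T A) : Fin r → ℚ⟦X⟧)) := by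
      have := hs.map' (Sol T A).subtype (Submodule.ker_subtype _)
      exact this
    have h3 := indep hT (fun i : s => (i : Sol T A).2) h2
    have h4 := h3.fintype_card_le_finrank
    rw [Module.finrank_fin_fun, Fintype.card_coe] at h4
    exact h4
  have h2 : Module.rank ℚ (Sol T A) < Cardinal.aleph0 := lt_of_le_of_lt h1 (Cardinal.natCast_lt_aleph0)
  have h3 : Module.Finite ℚ (Sol T A) := Module.rank_lt_aleph0_iff.1 h2
  exact (Module.finBasis ℚ (Sol T A)).equivFun.injective.countable

end Pool.Agent.Q246.OS
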