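import Pool.Agent.Q246.OS.BadT
import Pool.Agent.Q246.OS.Sol
import Pool.Agent.Q246.OS.Dens

/-!
# One set of tuples for countably many properties
-/

set_option autoImplicit false

open PowerSeries Module Filter Topology

namespace Pool.Agent.Q246.OS

open Pool.Agent.Y916.Af Pool.Agent.Y916.Al Pool.Agent.Y916.Sl
open Pool.Agent.Q189.MF (ptD FibD GdD torD)
open Pool.Agent.Q189.HC (op)
open Pool.Agent.TH456.TM (MeasT)

/-- the tuples of algebraic integers of degree at most `m` with conjugates at most `T` -/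
def Tup (k m T : ℕ) : Set (Fin k → ℂ) := {x | ∀ j, SInt m T (x j)}

lemma tup_fin (k m T : ℕ) : (Tup k m T).Finite := by
  have h : {x : Fin k → ℂ | ∀ j, x j ∈ {ξ : ℂ | SInt m T ξ}}.Finite := Set.Finite.pi' fun _ => sint_fin m T
  exact h

lemma sint_mono {m m' T T' : ℕ} (hm : m ≤ m') (hT : T ≤ T') {ξ : ℂ} (h : SInt m T ξ) : SInt m' T' ξ :=
  ⟨h.1, h.2.1.trans hm, fun z hz => (h.2.2 z hz).trans (by exact_mod_cast hT)⟩

lemma tup_mono (k : ℕ) (m m' T T' : ℕ) (hm : m ≤ m') (hT : T ≤ T') : Tup k m T ⊆ Tup k m' T' :=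
  fun _ hx j => sint_mono hm hT (hx j)

lemma tup_card (k m T : ℕ) : (Tup k m T).ncard = ({ξ : ℂ | SInt m T ξ}.ncard) ^ k := by
  classical
  have hf := sint_fin m T
  have h1 : Tup k m T = ((Fintype.piFinset fun _ : Fin k => hf.toFinset : Finset (Fin k → ℂ)) : Set (Fin k → ℂ)) := by
    ext x
    simp [Tup]
  rw [h1, Set.ncard_coe_finset, Fintype.card_piFinset, Finset.prod_const, Finset.card_univ, Fintype.card_fin,
    ← Set.ncard_eq_toFinset_card _ hf]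

lemma zero_sint {m T : ℕ} (hm : 1 ≤ m) : SInt m T 0 := by
  refine ⟨isIntegral_zero, ?_, fun z hz => ?_⟩
  · rw [minpoly.zero, Polynomial.natDegree_X]
    exact hm
  · rw [minpoly.zero, Polynomial.aeval_X] at hz
    rw [hz, norm_zero]
    exact Nat.cast_nonneg T

lemma tup_pos (k : ℕ) {m : ℕ} (hm : 1 ≤ m) (T : ℕ) : 0 < (Tup k m T).ncard :=
  (Set.ncard_pos (tup_fin k m T)).2 ⟨0, fun _ => zero_sint hm⟩

/-- the property `Gd` holds on a set of heights of upper density at least `1 - ε` on the doubly logarithmic scale -/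
def Pr (Gd : ℝ → Prop) (ε : ℝ) : Prop := ∀ N₀ : ℕ, ∃ N, N₀ ≤ N ∧
  (({j : ℕ | j < N ∧ ¬ ∀ H : ℝ, 2 ^ (2 ^ j) ≤ H → H ≤ 2 ^ (2 ^ (j + 1)) → Gd H}.ncard : ℕ) : ℝ) ≤ ε * N

lemma Pr.mono {Gd Gd' : ℝ → Prop} {ε ε' : ℝ} (h : Pr Gd ε) (hG : ∀ H, 1 ≤ H → Gd H → Gd' H) (hε : ε ≤ ε') : Pr Gd' ε' := by
  intro N₀
  obtain ⟨N, hN, h1⟩ := h N₀
  refine ⟨N, hN, le_trans ?_ (h1.trans (mul_le_mul_of_nonneg_right hε (Nat.cast_nonneg N)))⟩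
  have h2 : {j : ℕ | j < N ∧ ¬ ∀ H : ℝ, 2 ^ (2 ^ j) ≤ H → H ≤ 2 ^ (2 ^ (j + 1)) → Gd' H} ⊆
      {j : ℕ | j < N ∧ ¬ ∀ H : ℝ, 2 ^ (2 ^ j) ≤ H → H ≤ 2 ^ (2 ^ (j + 1)) → Gd H} := by
    rintro j ⟨hj, h3⟩
    refine ⟨hj, fun h4 => h3 fun H h5 h6 => hG H (le_trans (one_le_pow₀ (by norm_num)) h5) (h4 H h5 h6)⟩
  exact_mod_cast Set.ncard_le_ncard h2 ((Set.finite_lt_nat N).subset fun j hj => hj.1)

/-- there are arbitrarily large good heights -/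
lemma Pr.large {Gd : ℝ → Prop} (h : Pr Gd (1 / 2)) (H₀ : ℝ) : ∃ H, H₀ ≤ H ∧ Gd H := by
  classical
  obtain ⟨s, hs⟩ := exists_nat_gt H₀
  obtain ⟨N, hN, h1⟩ := h (2 * s + 2)
  set bad := {j : ℕ | j < N ∧ ¬ ∀ H : ℝ, 2 ^ (2 ^ j) ≤ H → H ≤ 2 ^ (2 ^ (j + 1)) → Gd H} with hbad
  have hfin : bad.Finite := (Set.finite_lt_nat N).subset fun j hj => hj.1
  obtain ⟨j, hj1, hj2, hj3⟩ : ∃ j, s ≤ j ∧ j < N ∧ j ∉ bad := by
    by_contra hcon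
    push Not at hcon
    have h2 : (Finset.Ico s N : Set ℕ) ⊆ bad := by
      intro j hj
      rw [Finset.coe_Ico, Set.mem_Ico] at hj
      exact hcon j hj.1 hj.2
    have h3 := Set.ncard_le_ncard h2 hfin
    rw [Set.ncard_coe_finset, Nat.card_Ico] at h3
    have h4 : ((N - s : ℕ) : ℝ) ≤ 1 / 2 * N := (by exact_mod_cast h3 : ((N - s : ℕ) : ℝ) ≤ (bad.ncard : ℝ)).trans h1
    rw [Nat.cast_sub (by omega)] at h4
    have h5 : (2 * (s : ℝ) + 2) ≤ N := by exact_mod_cast hN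
    linarith
  have h2 : ∀ H : ℝ, 2 ^ (2 ^ j) ≤ H → H ≤ 2 ^ (2 ^ (j + 1)) → Gd H := by
    by_contra hcon
    exact hj3 ⟨hj2, hcon⟩
  refine ⟨2 ^ (2 ^ j), ?_, h2 _ le_rfl (pow_le_pow_right₀ (by norm_num) (Nat.pow_le_pow_right (by norm_num) (by omega)))⟩
  have h3 : j < 2 ^ j := Nat.lt_two_pow_self
  have h4 : 2 ^ j < 2 ^ (2 ^ j) := Nat.lt_two_pow_self
  have h5 : (s : ℝ) ≤ 2 ^ (2 ^ j) := by
    have : s ≤ 2 ^ (2 ^ j) := by omega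
    exact_mod_cast this
  linarith

variable {k : ℕ}

/-- the exceptional tuples of exact degree have density zero -/
lemma dens_zero (m : ℕ) (hm : 1 ≤ m) (Gd : (Fin k → ℂ) → ℝ → Prop) (C c : ℝ) (hc : 0 < c)
    (h : ∀ T : ℕ, 1 ≤ T → (({x : Fin k → ℂ | (∀ j, SInt m T (x j)) ∧ ¬ Pr (Gd x) ((T : ℝ) ^ (-c))}.ncard : ℕ) : ℝ) ≤
      C * (T : ℝ) ^ (-c) * (({ξ : ℂ | SInt m T ξ}.ncard : ℕ) : ℝ) ^ k) (ε : ℝ) (hε : 0 < ε) (m' : ℕ) (hm' : 1 ≤ m') :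
    Tendsto (fun T : ℕ => ((({x : Fin k → ℂ | (∃ T, x ∈ Tup k m T) ∧ (∀ T, x ∉ Tup k (m - 1) T) ∧ ¬ Pr (Gd x) ε} ∩
      Tup k m' T).ncard : ℕ) : ℝ) / (Tup k m' T).ncard) atTop (𝓝 0) := by
  have hc0 : Tendsto (fun T : ℕ => (T : ℝ) ^ (-c)) atTop (𝓝 0) :=
    (tendsto_rpow_neg_atTop hc).comp tendsto_natCast_atTop_atTop
  have h0 : Tendsto (fun T : ℕ => |C| * (T : ℝ) ^ (-c)) atTop (𝓝 0) := by
    have := hc0.const_mul |C|
    simpa using this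
  refine squeeze_zero' (Eventually.of_forall fun T => by positivity) ?_ h0
  filter_upwards [hc0.eventually (gt_mem_nhds hε), eventually_ge_atTop 1] with T hT hT1
  have hpos : (0 : ℝ) < (Tup k m' T).ncard := by exact_mod_cast tup_pos k hm' T
  rw [div_le_iff₀ hpos]
  rcases lt_or_ge m' m with hlt | hge
  · have h1 : {x : Fin k → ℂ | (∃ T, x ∈ Tup k m T) ∧ (∀ T, x ∉ Tup k (m - 1) T) ∧ ¬ Pr (Gd x) ε} ∩ Tup k m' T = ∅ := by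
      ext x
      simp only [Set.mem_inter_iff, Set.mem_ofPred_eq, Set.mem_empty_iff_false, iff_false, not_and]
      rintro ⟨-, h2, -⟩ h3
      exact h2 T (tup_mono k m' (m - 1) T T (by omega) le_rfl h3)
    rw [h1, Set.ncard_empty, Nat.cast_zero]
    positivity
  · have h1 : {x : Fin k → ℂ | (∃ T, x ∈ Tup k m T) ∧ (∀ T, x ∉ Tup k (m - 1) T) ∧ ¬ Pr (Gd x) ε} ∩ Tup k m' T ⊆
        {x : Fin k → ℂ | (∀ j, SInt m T (x j)) ∧ ¬ Pr (Gd x) ((T : ℝ) ^ (-c))} := by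
      rintro x ⟨⟨⟨T₀, h2⟩, -, h3⟩, h4⟩
      refine ⟨fun j => ⟨(h2 j).1, (h2 j).2.1, (h4 j).2.2⟩, fun h5 => h3 (h5.mono (fun _ _ h => h) hT.le)⟩
    have hfin : {x : Fin k → ℂ | (∀ j, SInt m T (x j)) ∧ ¬ Pr (Gd x) ((T : ℝ) ^ (-c))}.Finite :=
      (tup_fin k m T).subset fun x hx => hx.1
    have h2 := Set.ncard_le_ncard h1 hfin
    have h3 := h T hT1
    have h4 : (({ξ : ℂ | SInt m T ξ}.ncard : ℕ) : ℝ) ^ k ≤ (Tup k m' T).ncard := by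
      have h5 : (({ξ : ℂ | SInt m T ξ}.ncard : ℕ) : ℝ) ^ k = ((Tup k m T).ncard : ℝ) := by
        rw [tup_card]
        push_cast
        rfl
      rw [h5]
      exact_mod_cast Set.ncard_le_ncard (tup_mono k m m' T T hge le_rfl) (tup_fin k m' T)
    have hTc : 0 ≤ (T : ℝ) ^ (-c) := Real.rpow_nonneg (Nat.cast_nonneg T) _
    calc _ ≤ (({x : Fin k → ℂ | (∀ j, SInt m T (x j)) ∧ ¬ Pr (Gd x) ((T : ℝ) ^ (-c))}.ncard : ℕ) : ℝ) := by exact_mod_cast h2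
      _ ≤ C * (T : ℝ) ^ (-c) * (({ξ : ℂ | SInt m T ξ}.ncard : ℕ) : ℝ) ^ k := h3
      _ ≤ |C| * (T : ℝ) ^ (-c) * (({ξ : ℂ | SInt m T ξ}.ncard : ℕ) : ℝ) ^ k :=
          mul_le_mul_of_nonneg_right (mul_le_mul_of_nonneg_right (le_abs_self C) hTc) (by positivity)
      _ ≤ _ := mul_le_mul_of_nonneg_left h4 (by positivity)

/-- one set of tuples for countably many properties -/
theorem one_set_pr {ι : Type} [Countable ι] (mm : ι → ℕ) (hm : ∀ i, 1 ≤ mm i) (Gd : ι → (Fin k → ℂ) → ℝ → Prop)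
    (C c : ι → ℝ) (hc : ∀ i, 0 < c i)
    (h : ∀ (i : ι) (T : ℕ), 1 ≤ T → (({x : Fin k → ℂ | (∀ j, SInt (mm i) T (x j)) ∧
      ¬ Pr (Gd i x) ((T : ℝ) ^ (-c i))}.ncard : ℕ) : ℝ) ≤
      C i * (T : ℝ) ^ (-c i) * (({ξ : ℂ | SInt (mm i) T ξ}.ncard : ℕ) : ℝ) ^ k) :
    ∃ S : Set (Fin k → ℂ), (∀ m, 1 ≤ m → Tendsto (fun T : ℕ => (((S ∩ Tup k m T).ncard : ℕ) : ℝ) / (Tup k m T).ncard)
      atTop (𝓝 1)) ∧ ∀ (i : ι) (ε : ℝ), 0 < ε → ∃ T₁ : ℕ, ∀ x ∈ S, (∃ T, x ∈ Tup k (mm i) T) →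
        (∀ T, x ∉ Tup k (mm i - 1) T) → x ∉ Tup k (mm i) T₁ → Pr (Gd i x) ε := by
  obtain ⟨S, h1, h2⟩ := one_set (Tup k) (tup_fin k) (tup_mono k) (fun m hm => Eventually.of_forall fun T => tup_pos k hm T)
    (fun p : ι × ℕ => {x : Fin k → ℂ | (∃ T, x ∈ Tup k (mm p.1) T) ∧ (∀ T, x ∉ Tup k (mm p.1 - 1) T) ∧
      ¬ Pr (Gd p.1 x) (1 / ((p.2 : ℝ) + 1))})
    (fun p m' hm' => dens_zero (mm p.1) (hm p.1) (Gd p.1) (C p.1) (c p.1) (hc p.1) (h p.1) _ (by positivity) m' hm')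
  refine ⟨S, h1, fun i ε hε => ?_⟩
  obtain ⟨n, hn⟩ := exists_nat_one_div_lt hε
  obtain ⟨m, T, hmT⟩ := h2 (i, n)
  refine ⟨T, fun x hx h3 h4 h5 => ?_⟩
  by_contra hcon
  have h6 := hmT x hx ⟨h3, h4, fun h7 => hcon (h7.mono (fun _ _ h => h) hn.le)⟩
  obtain ⟨T₀, h7⟩ := h3
  exact h5 fun j => ⟨(h7 j).1, (h7 j).2.1, (h6 j).2.2⟩

/-- every tuple has an exact degree -/
lemma exact_deg (hk : 1 ≤ k) {m T : ℕ} {x : Fin k → ℂ} (hx : x ∈ Tup k m T) :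
    ∃ m', 1 ≤ m' ∧ m' ≤ m ∧ (∃ T, x ∈ Tup k m' T) ∧ ∀ T, x ∉ Tup k (m' - 1) T := by
  classical
  have h1 : ∃ m' T, x ∈ Tup k m' T := ⟨m, T, hx⟩
  have h0 : ∀ T, x ∉ Tup k 0 T := by
    intro T h2
    have h3 := h2 ⟨0, by omega⟩
    have h4 : 0 < (minpoly ℚ (x ⟨0, by omega⟩)).natDegree := minpoly.natDegree_pos (h3.1.tower_top)
    have h5 := h3.2.1
    omega
  refine ⟨Nat.find h1, ?_, Nat.find_min' h1 ⟨T, hx⟩, Nat.find_spec h1, fun T' h2 => ?_⟩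
  · by_contra hcon
    have h2 : Nat.find h1 = 0 := by omega
    obtain ⟨T', h3⟩ := Nat.find_spec h1
    rw [h2] at h3
    exact h0 T' h3
  · rcases Nat.eq_zero_or_pos (Nat.find h1) with h3 | h3
    · rw [h3] at h2
      exact h0 T' h2
    · exact Nat.find_min h1 (m := Nat.find h1 - 1) (by omega) ⟨T', h2⟩

variable {r : Fin k → ℕ}

/-- The test at the height `H` with the precision `H ^ (-B)` is correct, and only the formally equal expressions have the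
same value. -/
def CorT (h : ∀ j, Fin (r j) → ℚ⟦X⟧) (d B : ℕ) (θ : ℂ) (α : Fin k → ℂ) (H : ℝ) : Prop :=
  ∀ ℓ : Fin k → ℂ, (∀ j, Complex.exp (ℓ j) = α j) → (∀ j, ‖ℓ j‖ ≤ H) →
    ∀ P Q : MvPolynomial ((Σ j : Fin k, Option (Fin (r j))) ⊕ Option (Fin k)) ℤ,
      (P.totalDegree ≤ d ∧ ∀ e, |((P.coeff e : ℤ) : ℝ)| ≤ H) → (Q.totalDegree ≤ d ∧ ∀ e, |((Q.coeff e : ℤ) : ℝ)| ≤ H) →
      (MvPolynomial.aeval (Sum.elim (ptD h α ℓ) (op θ α)) P = MvPolynomial.aeval (Sum.elim (ptD h α ℓ) (op θ α)) Q ↔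
        ∀ y ∈ FibD h (fun j => 1 / α j), ∀ z : ℂ,
          MvPolynomial.aeval (Sum.elim y (op z α)) P = MvPolynomial.aeval (Sum.elim y (op z α)) Q) ∧
      ∀ u v : ℂ, H ^ B * ‖u - MvPolynomial.aeval (Sum.elim (ptD h α ℓ) (op θ α)) P‖ ≤ 1 →
        H ^ B * ‖v - MvPolynomial.aeval (Sum.elim (ptD h α ℓ) (op θ α)) Q‖ ≤ 1 →
        (MvPolynomial.aeval (Sum.elim (ptD h α ℓ) (op θ α)) P = MvPolynomial.aeval (Sum.elim (ptD h α ℓ) (op θ α)) Q ↔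
          H ^ B * ‖u - v‖ ≤ 2)

/-- equal numbers have close approximations -/
theorem close {A : ℝ} (hA : 0 ≤ A) {u v p q : ℂ} (hu : A * ‖u - p‖ ≤ 1) (hv : A * ‖v - q‖ ≤ 1) (h : p = q) :
    A * ‖u - v‖ ≤ 2 := by
  subst h
  have h1 : ‖u - v‖ ≤ ‖u - p‖ + ‖v - p‖ := by
    calc ‖u - v‖ = ‖(u - p) - (v - p)‖ := by congr 1; ring
      _ ≤ _ := norm_sub_le _ _
  calc A * ‖u - v‖ ≤ A * (‖u - p‖ + ‖v - p‖) := mul_le_mul_of_nonneg_left h1 hA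
    _ = A * ‖u - p‖ + A * ‖v - p‖ := by ring
    _ ≤ 2 := by linarith

/-- a larger precision, at the same height -/
lemma CorT.mono_B {h : ∀ j, Fin (r j) → ℚ⟦X⟧} {d B B' : ℕ} {θ : ℂ} {α : Fin k → ℂ} {H : ℝ} (hH : 1 ≤ H) (hB : B ≤ B')
    (hc : CorT h d B θ α H) : CorT h d B' θ α H := by
  intro ℓ hℓ hℓH P Q hP hQ
  obtain ⟨g1, g2⟩ := hc ℓ hℓ hℓH P Q hP hQ
  have h4 : H ^ B ≤ H ^ B' := pow_le_pow_right₀ hH hB
  refine ⟨g1, fun u v hu hv => ⟨close (by positivity) hu hv, fun h => ?_⟩⟩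
  exact (g2 u v ((mul_le_mul_of_nonneg_right h4 (norm_nonneg _)).trans hu)
    ((mul_le_mul_of_nonneg_right h4 (norm_nonneg _)).trans hv)).2
    ((mul_le_mul_of_nonneg_right h4 (norm_nonneg _)).trans h)

theorem cor_fam {h : ∀ j, Fin (r j) → ℚ⟦X⟧} (hfam : ∀ j, Pool.Agent.Q246.AF.FAMN (h j))
    (hsize : ∀ j, ∃ C : ℝ, ∀ i m, |((coeff m (h j i) : ℚ) : ℝ)| ≤ C ^ (m + 1))
    (hc : ∀ j, Pool.Agent.Y118.UL.Conn (h j)) (m d : ℕ) (hm : 1 ≤ m) {θ : ℂ} (hθ : MeasT θ) :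
    ∃ (B : ℕ) (C c : ℝ), 0 < c ∧ ∀ T : ℕ, 1 ≤ T →
      (({x : Fin k → ℂ | (∀ j, SInt m T (x j)) ∧ ¬ Pr (CorT h d B θ x) ((T : ℝ) ^ (-c))}.ncard : ℕ) : ℝ) ≤
        C * (T : ℝ) ^ (-c) * (({ξ : ℂ | SInt m T ξ}.ncard : ℕ) : ℝ) ^ k := by
  choose R₁' hR₁1' hR₁' using fun j => val_memC (hsize j)
  obtain ⟨R₁, hR₁⟩ : ∃ R₁ : ℕ, ∀ j, R₁' j ≤ R₁ :=
    ⟨∑ j, R₁' j, fun j => Finset.single_le_sum (f := R₁') (fun _ _ => Nat.zero_le _) (Finset.mem_univ j)⟩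
  have h0 := torT hfam hsize hc m d 2 R₁ hm (by norm_num) hθ (fun B x H => CorT h d B θ x H)
    (fun B₀ => ⟨2 * B₀ + 1, fun T hT => ⟨5, fun α H hH _ hαR hg => ?_⟩⟩) ?_
  · obtain ⟨B, C, c, hc, h1⟩ := h0
    exact ⟨B, C, c, hc, fun T hT => (h1 T hT).2⟩
  · have hH0 : 0 ≤ H := by linarith
    have hH4 : H ≤ H ^ 2 := le_self_pow₀ (by linarith) (by norm_num)
    intro ℓ hℓ hℓH P Q hP hQ
    have hptF : ptD h α ℓ ∈ FibD h fun j => 1 / α j := fun j =>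
      hR₁' j (α j) (lt_of_le_of_lt (by exact_mod_cast hR₁ j) (hαR j))
    have key : (∃ y ∈ FibD h (fun j => 1 / α j), ∃ z : ℂ,
        MvPolynomial.aeval (Sum.elim y (op z α)) P ≠ MvPolynomial.aeval (Sum.elim y (op z α)) Q) →
        1 ≤ H ^ (2 * B₀) * ‖MvPolynomial.aeval (Sum.elim (ptD h α ℓ) (op θ α)) P -
          MvPolynomial.aeval (Sum.elim (ptD h α ℓ) (op θ α)) Q‖ := by
      rintro ⟨y, hy, z, hz⟩
      have h1 := hg ℓ hℓ (fun j => (hℓH j).trans hH4) (P - Q)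
        ((MvPolynomial.totalDegree_sub _ _).trans (max_le hP.1 hQ.1))
        (fun e => by
          rw [MvPolynomial.coeff_sub]
          push_cast
          refine (abs_sub _ _).trans ?_
          have := hP.2 e
          have := hQ.2 e
          nlinarith) ⟨y, hy, z, by
            rw [map_sub]
            exact sub_ne_zero.2 hz⟩
      rw [pow_mul, ← map_sub]
      exact h1
    have key2 : MvPolynomial.aeval (Sum.elim (ptD h α ℓ) (op θ α)) P = MvPolynomial.aeval (Sum.elim (ptD h α ℓ) (op θ α)) Q →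
        ∀ y ∈ FibD h (fun j => 1 / α j), ∀ z : ℂ,
          MvPolynomial.aeval (Sum.elim y (op z α)) P = MvPolynomial.aeval (Sum.elim y (op z α)) Q := by
      intro h y hy z
      by_contra hb
      have h2 := key ⟨y, hy, z, hb⟩
      rw [h, sub_self, norm_zero, mul_zero] at h2
      linarith
    have key3 : (∀ y ∈ FibD h (fun j => 1 / α j), ∀ z : ℂ,
          MvPolynomial.aeval (Sum.elim y (op z α)) P = MvPolynomial.aeval (Sum.elim y (op z α)) Q) →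
        MvPolynomial.aeval (Sum.elim (ptD h α ℓ) (op θ α)) P = MvPolynomial.aeval (Sum.elim (ptD h α ℓ) (op θ α)) Q :=
      fun h => h _ hptF θ
    refine ⟨⟨key2, key3⟩, fun u v hu hv => ⟨close (by positivity) hu hv, fun h5 => ?_⟩⟩
    by_contra hne
    have h2 := key (by
      by_contra hcon
      push Not at hcon
      exact hne (key3 hcon))
    set p := MvPolynomial.aeval (Sum.elim (ptD h α ℓ) (op θ α)) P with hp
    set q := MvPolynomial.aeval (Sum.elim (ptD h α ℓ) (op θ α)) Q with hq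
    have h3 : ‖p - q‖ ≤ ‖u - p‖ + ‖u - v‖ + ‖v - q‖ := by
      calc ‖p - q‖ = ‖-(u - p) + (u - v) + (v - q)‖ := by congr 1; ring
        _ ≤ ‖-(u - p)‖ + ‖u - v‖ + ‖v - q‖ := norm_add₃_le
        _ = _ := by rw [norm_neg]
    have h4 : H * 1 ≤ 4 := by
      calc H * 1 ≤ H * (H ^ (2 * B₀) * ‖p - q‖) := mul_le_mul_of_nonneg_left h2 hH0
        _ = H ^ (2 * B₀ + 1) * ‖p - q‖ := by rw [pow_succ]; ring
        _ ≤ H ^ (2 * B₀ + 1) * (‖u - p‖ + ‖u - v‖ + ‖v - q‖) :=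
          mul_le_mul_of_nonneg_left h3 (by positivity)
        _ ≤ 4 := by rw [mul_add, mul_add]; linarith
    linarith
  · intro B x H H' h1 h2 h3 hg ℓ hℓ hℓH P Q hP hQ
    have hH0 : 0 ≤ H := by linarith
    have h4 : H' ^ B ≤ H ^ (2 * B) := by
      rw [pow_mul]
      exact pow_le_pow_left₀ (by linarith) h3 _
    obtain ⟨g1, g2⟩ := hg ℓ hℓ (fun j => (hℓH j).trans h2) P Q ⟨hP.1, fun e => (hP.2 e).trans h2⟩
      ⟨hQ.1, fun e => (hQ.2 e).trans h2⟩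
    refine ⟨g1, fun u v hu hv => ⟨close (by positivity) hu hv, fun h => ?_⟩⟩
    exact (g2 u v ((mul_le_mul_of_nonneg_right h4 (norm_nonneg _)).trans hu)
      ((mul_le_mul_of_nonneg_right h4 (norm_nonneg _)).trans hv)).2
      ((mul_le_mul_of_nonneg_right h4 (norm_nonneg _)).trans h)

/-- only the polynomials which vanish on the product of the fibres vanish at the point -/
def RelP {g : ℕ} (h : ∀ j, Fin (r j) → ℚ⟦X⟧) (d : ℕ) (ζ : Fin g → ℂ) (α : Fin k → ℂ) (H : ℝ) : Prop :=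
  ∀ ℓ : Fin k → ℂ, (∀ j, Complex.exp (ℓ j) = α j) → (∀ j, ‖ℓ j‖ ≤ H) →
    ∀ P : MvPolynomial ((Σ j : Fin k, Option (Fin (r j))) ⊕ (Fin g ⊕ Fin k)) ℤ,
      P.totalDegree ≤ d → (∀ e, |((P.coeff e : ℤ) : ℝ)| ≤ H) →
      (MvPolynomial.aeval (Sum.elim (ptD h α ℓ) (Sum.elim ζ α)) P = 0 ↔
        ∀ y ∈ FibD h (fun j => 1 / α j), MvPolynomial.aeval (Sum.elim y (Sum.elim ζ α)) P = 0)

theorem rel_fam {h : ∀ j, Fin (r j) → ℚ⟦X⟧} (hfam : ∀ j, Pool.Agent.Q246.AF.FAMN (h j))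
    (hsize : ∀ j, ∃ C : ℝ, ∀ i m, |((coeff m (h j i) : ℚ) : ℝ)| ≤ C ^ (m + 1))
    (hc : ∀ j, Pool.Agent.Y118.UL.Conn (h j)) {g : ℕ} (ζ : Fin g → ℂ) (m d : ℕ) (hm : 1 ≤ m) :
    ∃ (C c : ℝ), 0 < c ∧ ∀ T : ℕ, 1 ≤ T →
      (({x : Fin k → ℂ | (∀ j, SInt m T (x j)) ∧ ¬ Pr (RelP h d ζ x) ((T : ℝ) ^ (-c))}.ncard : ℕ) : ℝ) ≤
        C * (T : ℝ) ^ (-c) * (({ξ : ℂ | SInt m T ξ}.ncard : ℕ) : ℝ) ^ k := by
  choose R₁' hR₁1' hR₁' using fun j => val_memC (hsize j)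
  obtain ⟨R₁, hR₁⟩ : ∃ R₁ : ℕ, ∀ j, R₁' j ≤ R₁ :=
    ⟨∑ j, R₁' j, fun j => Finset.single_le_sum (f := R₁') (fun _ _ => Nat.zero_le _) (Finset.mem_univ j)⟩
  have h0 := torD hfam hsize hc g m d 1 R₁ hm le_rfl (fun _ : Unit => ζ) (fun _ _ x H => RelP h d ζ x H)
    (fun B₀ => ⟨0, fun T hT => ⟨1, fun _ α H hH _ hαR hg => ?_⟩⟩) ?_
  · obtain ⟨B, C, c, hc, h1⟩ := h0
    exact ⟨C, c, hc, fun T hT => (h1 T hT).2 ()⟩
  · rw [pow_one] at hg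
    intro ℓ hℓ hℓH P hP hPH
    have hptF : ptD h α ℓ ∈ FibD h fun j => 1 / α j := fun j =>
      hR₁' j (α j) (lt_of_le_of_lt (by exact_mod_cast hR₁ j) (hαR j))
    refine ⟨fun h2 y hy => ?_, fun h2 => h2 _ hptF⟩
    have h3 := (hg ℓ hℓ hℓH).2 P hP hPH y hy
    rw [h2, norm_zero, mul_zero] at h3
    exact norm_le_zero_iff.1 h3
  · intro _ _ x H H' h1 h2 h3 hg ℓ hℓ hℓH P hP hPH
    exact hg ℓ hℓ (fun j => (hℓH j).trans h2) P hP fun e => (hPH e).trans h2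

end Pool.Agent.Q246.OS
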